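import Mathlib
import Pool.Agent.H.MP_5bb8bc_co.A

namespace Pool.Agent.Results.MP_5bb8bc_co.Fourth

open Polynomial Module Finset

structure BM where
  E : Type
  fin : Fintype E
  C : Submodule (ZMod 2) (E → ZMod 2)

instance (M : BM) : Fintype M.E := M.fin

def orth {E : Type} [Fintype E] (W : Submodule (ZMod 2) (E → ZMod 2)) :
    Submodule (ZMod 2) (E → ZMod 2) where
  carrier := {k | ∀ c ∈ W, ∑ e, k e * c e = 0}
  add_mem' := fun ha hb c hc => by
    simp only [Pi.add_apply, add_mul, sum_add_distrib, ha c hc, hb c hc, add_zero]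
  zero_mem' := fun c _ => by simp
  smul_mem' := fun r a ha c hc => by
    simp only [Pi.smul_apply, smul_eq_mul, mul_assoc, ← mul_sum, ha c hc, mul_zero]

def res {E : Type} (A : Finset E) : (E → ZMod 2) →ₗ[ZMod 2] (A → ZMod 2) :=
  LinearMap.funLeft _ _ Subtype.val

def inside {E : Type} (A : Finset E) : Submodule (ZMod 2) (E → ZMod 2) :=
  Submodule.pi {e | e ∉ A} fun _ => ⊥

def BM.dual (M : BM) : BM := ⟨M.E, M.fin, orth M.C⟩

def BM.red (M : BM) (A : Finset M.E) : BM := ⟨A, inferInstance, (M.C ⊓ inside A).map (res A)⟩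

def BM.con (M : BM) (A : Finset M.E) : BM := ⟨A, inferInstance, M.C.map (res A)⟩

def Minor : BM → BM → Prop := Relation.ReflTransGen fun M N => ∃ A, N = M.red A ∨ N = M.con A

def Bridgeless (M : BM) : Prop := ∀ e, ∃ c ∈ M.C, c e ≠ 0

def bic (M : BM) (A : Finset M.E) : Submodule (ZMod 2) (M.E → ZMod 2) where
  carrier := {c | c ∈ M.C ∧ (A : Set M.E).indicator c ∈ orth M.C}
  add_mem' := fun ha hb => ⟨M.C.add_mem ha.1 hb.1, by
    rw [Set.indicator_add']; exact add_mem ha.2 hb.2⟩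
  zero_mem' := ⟨M.C.zero_mem, by rw [Set.indicator_zero']; exact zero_mem _⟩
  smul_mem' := fun r a ha => ⟨M.C.smul_mem r ha.1, by
    have := Submodule.smul_mem _ r ha.2
    rwa [Pi.smul_def, ← Set.indicator_const_smul] at this⟩

noncomputable def penrose (M : BM) : ℤ[X] :=
  ∑ A : Finset M.E, (-1) ^ A.card * X ^ finrank (ZMod 2) (bic M A)

def Alt (M : BM) : Prop :=
  ∀ i ≤ finrank (ZMod 2) M.C, 0 < (-1) ^ (finrank (ZMod 2) M.C - i) * (penrose M).coeff i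

def MinNA (M : BM) : Prop := Bridgeless M ∧ ¬ Alt M ∧
  ∀ N, Minor M N → Fintype.card N.E < Fintype.card M.E → Bridgeless N → Alt N

def Iso (M N : BM) : Prop := ∃ f : M.E ≃ N.E, ∀ c, c ∈ N.C ↔ c ∘ f ∈ M.C

def fano : BM := ⟨Fin 7, inferInstance, Submodule.span _ (Set.range fun i e : Fin 7 =>
  if e = i ∨ e = i + 1 ∨ e = i + 3 then 1 else 0)⟩

def cyc {n m : ℕ} (ed : Fin m → Fin n × Fin n) : BM := ⟨Fin m, inferInstance,
  orth (Submodule.span _ (Set.range fun v e => if (ed e).1 = v ∨ (ed e).2 = v then 1 else 0))⟩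

def pet : BM := cyc (n := 10) ![(0, 1), (1, 2), (2, 3), (3, 4), (4, 0), (0, 5), (1, 6), (2, 7),
  (3, 8), (4, 9), (5, 7), (6, 8), (7, 9), (8, 5), (9, 6)]

def k5 : BM := cyc (n := 5) ![(0, 1), (0, 2), (0, 3), (0, 4), (1, 2), (1, 3), (1, 4), (2, 3),
  (2, 4), (3, 4)]

section
variable {E : Type} [Fintype E] {W : Submodule (ZMod 2) (E → ZMod 2)}

theorem mo {k} : k ∈ orth W ↔ ∀ c ∈ W, ∑ e, k e * c e = 0 := Iff.rfl

theorem mi {E : Type} {A : Finset E} {c} : c ∈ inside A ↔ ∀ e ∉ A, c e = 0 := by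
  simp [inside, Submodule.mem_pi]

theorem mos {ι : Type} {b : ι → E → ZMod 2} {k} :
    k ∈ orth (Submodule.span _ (Set.range b)) ↔ ∀ i, ∑ e, k e * b i e = 0 := by
  refine ⟨fun h i => h _ (Submodule.subset_span ⟨i, rfl⟩), fun h c hc => ?_⟩
  have : Submodule.span _ (Set.range b) ≤ orth (Submodule.span _ {k}) := by
    rw [Submodule.span_le]
    rintro _ ⟨i, rfl⟩ c hc
    obtain ⟨r, rfl⟩ := Submodule.mem_span_singleton.1 hc
    simp only [Pi.smul_apply, smul_eq_mul, mul_comm (b i _), mul_assoc, ← mul_sum, h i,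
      mul_zero]
  simpa only [mul_comm] using this hc k (Submodule.mem_span_singleton_self k)

theorem oo : orth (orth W) = W := by
  classical
  refine le_antisymm (fun x hx => ?_) fun x hx c hc => by simpa only [mul_comm] using hc x hx
  by_contra q
  obtain ⟨f, h1, h2⟩ := W.exists_dual_map_eq_bot_of_notMem q inferInstance
  have e (z) : f z = ∑ e, z e * f (Pi.single e 1) := by
    conv_lhs => rw [← univ_sum_single z, map_sum]
    refine sum_congr rfl fun e _ => ?_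
    rw [← smul_eq_mul, ← map_smul, ← Pi.single_smul, smul_eq_mul, mul_one]
  refine h1 ((e x).trans (hx _ fun c hc => ?_))
  simp only [mul_comm _ (c _), ← e]
  exact (Submodule.eq_bot_iff _).1 h2 _ ⟨c, hc, rfl⟩

theorem ocon (A : Finset E) : orth (W.map (res A)) = (orth W ⊓ inside A).map (res A) := by
  classical
  have k (x d : E → ZMod 2) (h : ∀ e ∉ A, x e = 0) :
      ∑ a, res A x a * res A d a = ∑ e, x e * d e :=
    (sum_coe_sort A fun e => x e * d e).trans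
      (sum_subset (subset_univ _) fun e _ q => by rw [h e q, zero_mul])
  ext x
  constructor
  · intro h
    have e : res A (fun e => if q : e ∈ A then x ⟨e, q⟩ else 0) = x :=
      funext fun a => dif_pos a.2
    refine ⟨_, ⟨fun d hd => ?_, mi.2 fun e q => dif_neg q⟩, e⟩
    rw [← k _ _ fun e q => dif_neg q, e]
    exact h _ ⟨d, hd, rfl⟩
  · rintro ⟨y, ⟨h1, h2⟩, rfl⟩ _ ⟨d, hd, rfl⟩
    exact (k _ _ (mi.1 h2)).trans (h1 d hd)

theorem ored (A : Finset E) : orth ((W ⊓ inside A).map (res A)) = (orth W).map (res A) := by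
  rw [← oo (W := (orth W).map _), ocon A (W := orth W), oo]

def Cut {E : Type} (W : Submodule (ZMod 2) (E → ZMod 2)) : Prop :=
  ∃ (V : Type) (_ : Finite V) (s t : E → V),
    ∀ c, c ∈ W ↔ ∃ φ : V → ZMod 2, ∀ e, c e = φ (s e) + φ (t e)

omit [Fintype E] in
theorem ccon (A : Finset E) : Cut W → Cut (W.map (res A)) := by
  rintro ⟨V, _, s, t, h⟩
  refine ⟨V, ‹_›, fun a => s a, fun a => t a, fun c => ⟨?_, fun ⟨φ, q⟩ =>
    ⟨fun e => φ (s e) + φ (t e), (h _).2 ⟨φ, fun _ => rfl⟩, funext fun a => (q a).symm⟩⟩⟩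
  rintro ⟨d, hd, rfl⟩
  obtain ⟨φ, q⟩ := (h d).1 hd
  exact ⟨φ, fun a => q a⟩

omit [Fintype E] in
theorem cred (A : Finset E) : Cut W → Cut ((W ⊓ inside A).map (res A)) := by
  rintro ⟨V, _, s, t, h⟩
  refine ⟨Quot fun x y => ∃ e ∉ A, x = s e ∧ y = t e, inferInstance, fun a => .mk _ (s a),
    fun a => .mk _ (t a), fun c => ⟨?_, fun ⟨φ, q⟩ =>
    ⟨fun e => φ (.mk _ (s e)) + φ (.mk _ (t e)), ⟨(h _).2 ⟨fun v => φ (.mk _ v), fun _ => rfl⟩,
      mi.2 fun e r => ?_⟩, funext fun a => (q a).symm⟩⟩⟩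
  · rintro ⟨d, ⟨hd, z⟩, rfl⟩
    obtain ⟨φ, q⟩ := (h d).1 hd
    refine ⟨Quot.lift φ ?_, fun a => q a⟩
    rintro _ _ ⟨e, r, rfl, rfl⟩
    exact CharTwo.add_eq_zero.1 ((q e).symm.trans (mi.1 z e r))
  · exact CharTwo.add_eq_zero.2 (congrArg φ (Quot.sound ⟨e, r, rfl, rfl⟩))

theorem ciso {D : Type} [Fintype D] {U : Submodule (ZMod 2) (D → ZMod 2)} (f : E ≃ D)
    (h : ∀ c, c ∈ U ↔ c ∘ f ∈ W) : (Cut W → Cut U) ∧ ∀ c, c ∈ orth U ↔ c ∘ f ∈ orth W := by
  refine ⟨fun ⟨V, _, s, t, q⟩ => ⟨V, ‹_›, s ∘ f.symm, t ∘ f.symm, fun c => ?_⟩, fun c =>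
    ⟨fun q d hd => ?_, fun q d hd => ?_⟩⟩
  · rw [h, q]
    exact exists_congr fun φ => ⟨fun r e => by simpa using r (f.symm e), fun r e => by
      simpa using r (f e)⟩
  · rw [← q (d ∘ f.symm) ((h _).2 (by simpa [Function.comp_def] using hd)), ← f.sum_comp]
    simp
  · rw [← q _ ((h _).1 hd), ← f.sum_comp]
    simp

open Pool.Agent.H.MP_5bb8bc_co

theorem rle {V : Type} [Fintype V] [DecidableEq V] {s t : E → V}
    (h : ∀ c ∈ W, ∃ φ : V → ZMod 2, ∀ e, c e = φ (s e) + φ (t e)) (w : V) (S : Finset V)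
    (hS : ∀ v ∉ S, v ≠ w → st s t v = 0) : finrank (ZMod 2) W ≤ S.card := by
  classical
  have z := (finrank_span_finset_le_card (R := ZMod 2) (S.image (st s t))).trans card_image_le
  refine le_trans (Submodule.finrank_mono fun c hc => ?_) z
  obtain ⟨φ, q⟩ := h c hc
  have : c = ∑ v, (φ v + φ w) • st s t v := by
    ext e
    simp only [q, Finset.sum_apply, Pi.smul_apply, st, smul_eq_mul, mul_add, sum_add_distrib,
      mul_ite, mul_one, mul_zero, sum_ite_eq, mem_univ, if_true]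
    linear_combination -(CharTwo.add_self_eq_zero (φ w))
  rw [this]
  refine sum_mem fun v _ => ?_
  by_cases a : v ∈ S
  · exact Submodule.smul_mem _ _ (Submodule.subset_span (mem_coe.2 (mem_image_of_mem _ a)))
  by_cases b : v = w
  · simp [b, CharTwo.add_self_eq_zero]
  simp [hS v a b]

omit [Fintype E] in
theorem rge [Finite E] {k : ℕ} (b : Fin k → E → ZMod 2)
    (h : ∀ g : Fin k → ZMod 2, (∀ e, ∑ i, g i * b i e = 0) → ∀ i, g i = 0) (hb : ∀ i, b i ∈ W) :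
    k ≤ finrank (ZMod 2) W := by
  have : LinearIndependent (ZMod 2) fun i => (⟨b i, hb i⟩ : W) := by
    refine Fintype.linearIndependent_iff.2 fun g q => h g fun e => ?_
    simpa using congrArg (fun x : W => x.1 e) q
  simpa using this.fintype_card_le_finrank

theorem euler (h : Cut W) {d k : ℕ} (hd : ∀ c ∈ W, c ≠ 0 → d ≤ #{e | c e ≠ 0})
    (hk : k + 1 ≤ finrank (ZMod 2) W) : (k + 2) * d ≤ 2 * Fintype.card E := by
  classical
  obtain ⟨V, _, s, t, h⟩ := h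
  have := Fintype.ofFinite V
  let S : Finset V := {v | st s t v ≠ 0}
  have h1 : #S * d ≤ 2 * Fintype.card E := by
    refine (card_nsmul_le_sum S (fun v => #{e | s e = v} + #{e | t e = v}) d fun v hv => ?_).trans
      ((sum_le_sum_of_subset (subset_univ _)).trans ?_)
    · refine (hd _ ((h _).2 ⟨fun x => if x = v then 1 else 0, fun _ => rfl⟩)
        (mem_filter.1 hv).2).trans ((card_le_card fun e he => ?_).trans (card_union_le _ _))
      by_contra z
      simp only [mem_union, mem_filter, mem_univ, true_and, not_or] at z he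
      simp [z.1, z.2] at he
    · have z (f : E → V) := card_eq_sum_card_fiberwise (f := f) (s := univ) (t := univ) (by simp)
      rw [sum_add_distrib, ← z, ← z, two_mul, card_univ]
  refine le_trans (Nat.mul_le_mul_right _ ?_) h1
  rcases S.eq_empty_or_nonempty with e | ⟨w, hw⟩
  · rcases isEmpty_or_nonempty V with _ | ⟨⟨w⟩⟩
    · have : IsEmpty E := s.isEmpty
      rw [finrank_zero_of_subsingleton] at hk
      omega
    have := rle (fun c => (h c).1) w S fun v q _ => by simpa [S] using q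
    rw [e, card_empty] at this
    omega
  have := rle (fun c => (h c).1) w (S.erase w) fun v q r => by simpa [S, r] using q
  rw [card_erase_of_mem hw] at this
  omega

omit [Fintype E] in
theorem stars {V : Type} [Fintype V] [DecidableEq V] (s t : E → V) (A : Finset E) (x : E → ZMod 2) :
    (∀ φ : V → ZMod 2, ∑ e ∈ A, x e * (φ (s e) + φ (t e)) = 0) ↔
      ∀ v, ∑ e ∈ A, x e * st s t v e = 0 := by
  refine ⟨fun h v => h fun x => if x = v then 1 else 0, fun h φ => ?_⟩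
  have (e : E) : x e * (φ (s e) + φ (t e)) = ∑ v, φ v * (x e * st s t v e) := by
    simp [st, mul_add, sum_add_distrib, mul_comm]
  simp only [this]
  rw [sum_comm]
  simp only [← mul_sum, h, mul_zero, sum_const_zero]

end

open Pool.Agent.H.MP_5bb8bc_co

def CX : Submodule (ZMod 2) (Fin 16 → ZMod 2) :=
  LinearMap.range (LinearMap.funLeft (ZMod 2) (ZMod 2) s + LinearMap.funLeft (ZMod 2) (ZMod 2) t)

def ex : BM := ⟨Fin 16, inferInstance, CX⟩

theorem mex {c : Fin 16 → ZMod 2} : c ∈ CX ↔ ∃ φ : Fin 8 → ZMod 2, ∀ e, c e = φ (s e) + φ (t e) :=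
  exists_congr fun _ => ⟨fun h e => (congrFun h e).symm, fun h => funext fun e => (h e).symm⟩

theorem moex {x : Fin 16 → ZMod 2} : x ∈ orth CX ↔ ∀ v, ∑ e, x e * st s t v e = 0 := by
  rw [← stars]
  refine ⟨fun h φ => h _ (mex.2 ⟨φ, fun _ => rfl⟩), fun h c hc => ?_⟩
  obtain ⟨φ, q⟩ := mex.1 hc
  simpa only [← q] using h φ

def s' : Fin 16 → Fin 10 := ![7, 0, 1, 2, 3, 4, 5, 6, 0, 1, 2, 3, 4, 5, 6, 7]

def t' : Fin 16 → Fin 10 := ![0, 1, 2, 3, 4, 5, 6, 7, 8, 9, 8, 9, 8, 9, 8, 9]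

theorem ex2 : Cut (orth CX) := by
  refine ⟨Fin 10, inferInstance, s', t', fun c => moex.trans ⟨fun h => ?_, ?_⟩⟩
  · simp +decide only [Fin.forall_fin_succ, Fin.sum_univ_succ, st, if_true, if_false, add_zero,
      zero_add, mul_one, mul_zero, sum_empty, univ_eq_empty, Fin.reduceSucc, and_true,
      Fin.succ_zero_eq_one, IsEmpty.forall_iff] at h
    obtain ⟨h0, h1, h2, h3, h4, h5, h6, h7⟩ := h
    refine ⟨![0, c 1, c 1 + c 2, c 1 + c 2 + c 3, c 1 + c 2 + c 3 + c 4, c 1 + c 2 + c 3 + c 4 + c 5, c 1 + c 2 + c 3 + c 4 + c 5 + c 6, c 1 + c 2 + c 3 + c 4 + c 5 + c 6 + c 7, c 8, c 1 + c 9],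
      fun e => ?_⟩
    have two : (2 : ZMod 2) = 0 := rfl
    fin_cases e
    · show c 0 = (c 1 + c 2 + c 3 + c 4 + c 5 + c 6 + c 7) + (0)
      linear_combination h0 + h2 + h4 + h6 + ((-1) * c 1 + (-1) * c 2 + (-1) * c 3 + (-1) * c 4 + (-1) * c 5 + (-1) * c 6 + (-1) * c 7 + (-1) * c 8 + (-1) * c 10 + (-1) * c 12 + (-1) * c 14) * two
    · show c 1 = (0) + (c 1)
      linear_combination (0) * two
    · show c 2 = (c 1) + (c 1 + c 2)
      linear_combination ((-1) * c 1) * two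
    · show c 3 = (c 1 + c 2) + (c 1 + c 2 + c 3)
      linear_combination ((-1) * c 1 + (-1) * c 2) * two
    · show c 4 = (c 1 + c 2 + c 3) + (c 1 + c 2 + c 3 + c 4)
      linear_combination ((-1) * c 1 + (-1) * c 2 + (-1) * c 3) * two
    · show c 5 = (c 1 + c 2 + c 3 + c 4) + (c 1 + c 2 + c 3 + c 4 + c 5)
      linear_combination ((-1) * c 1 + (-1) * c 2 + (-1) * c 3 + (-1) * c 4) * two
    · show c 6 = (c 1 + c 2 + c 3 + c 4 + c 5) + (c 1 + c 2 + c 3 + c 4 + c 5 + c 6)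
      linear_combination ((-1) * c 1 + (-1) * c 2 + (-1) * c 3 + (-1) * c 4 + (-1) * c 5) * two
    · show c 7 = (c 1 + c 2 + c 3 + c 4 + c 5 + c 6) + (c 1 + c 2 + c 3 + c 4 + c 5 + c 6 + c 7)
      linear_combination ((-1) * c 1 + (-1) * c 2 + (-1) * c 3 + (-1) * c 4 + (-1) * c 5 + (-1) * c 6) * two
    · show c 8 = (0) + (c 8)
      linear_combination (0) * two
    · show c 9 = (c 1) + (c 1 + c 9)
      linear_combination ((-1) * c 1) * two
    · show c 10 = (c 1 + c 2) + (c 8)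
      linear_combination h2 + ((-1) * c 1 + (-1) * c 2 + (-1) * c 8) * two
    · show c 11 = (c 1 + c 2 + c 3) + (c 1 + c 9)
      linear_combination h3 + ((-1) * c 1 + (-1) * c 2 + (-1) * c 3 + (-1) * c 9) * two
    · show c 12 = (c 1 + c 2 + c 3 + c 4) + (c 8)
      linear_combination h2 + h4 + ((-1) * c 1 + (-1) * c 2 + (-1) * c 3 + (-1) * c 4 + (-1) * c 8 + (-1) * c 10) * two
    · show c 13 = (c 1 + c 2 + c 3 + c 4 + c 5) + (c 1 + c 9)
      linear_combination h3 + h5 + ((-1) * c 1 + (-1) * c 2 + (-1) * c 3 + (-1) * c 4 + (-1) * c 5 + (-1) * c 9 + (-1) * c 11) * two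
    · show c 14 = (c 1 + c 2 + c 3 + c 4 + c 5 + c 6) + (c 8)
      linear_combination h2 + h4 + h6 + ((-1) * c 1 + (-1) * c 2 + (-1) * c 3 + (-1) * c 4 + (-1) * c 5 + (-1) * c 6 + (-1) * c 8 + (-1) * c 10 + (-1) * c 12) * two
    · show c 15 = (c 1 + c 2 + c 3 + c 4 + c 5 + c 6 + c 7) + (c 1 + c 9)
      linear_combination h3 + h5 + h7 + ((-1) * c 1 + (-1) * c 2 + (-1) * c 3 + (-1) * c 4 + (-1) * c 5 + (-1) * c 6 + (-1) * c 7 + (-1) * c 9 + (-1) * c 11 + (-1) * c 13) * two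
  · rintro ⟨ψ, q⟩ v
    simp only [q, mul_comm _ (st s t v _)]
    exact (stars s' t' _ _).2 (by revert v; decide +kernel) ψ

theorem stm (v) : st s t v ∈ CX := mex.2 ⟨fun x => if x = v then 1 else 0, fun _ => rfl⟩

theorem rk : finrank (ZMod 2) CX = 7 :=
  le_antisymm (rle (fun _ => mex.1) 7 (univ.erase 7) (by simp +contextual))
    (rge (fun i => st s t i.castSucc) (by decide +kernel) fun _ => stm _)

theorem c0 : (penrose ex).coeff 0 = 160 := by
  rw [← main, coeff_zero_eq_eval_zero, penrose, eval_finsetSum]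
  refine sum_congr rfl fun (A : Finset (Fin 16)) _ => ?_
  simp only [eval_mul, eval_pow, eval_neg, eval_one, eval_X, zero_pow_eq]
  congr 2
  have k (c : Fin 16 → ZMod 2) (v) : ∑ e, (A : Set (Fin 16)).indicator c e * st s t v e =
      ∑ e ∈ A, c e * st s t v e := by
    simp [Set.indicator_apply]
  rw [Submodule.finrank_eq_zero, Submodule.eq_bot_iff, eq_iff_iff]
  refine ⟨fun h φ q e => congrFun (h (fun e => φ (s e) + φ (t e))
    ⟨mex.2 ⟨φ, fun _ => rfl⟩, moex.2 fun v => (k _ v).trans (q v)⟩) e, fun h c ⟨h1, h2⟩ => ?_⟩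
  obtain ⟨φ, q⟩ := mex.1 h1
  exact funext fun e => (q e).trans (h φ (fun v => by
    simpa only [← q] using (k _ v).symm.trans (moex.1 h2 v)) e)

theorem nf : ¬ Cut fano.C := fun q => by
  refine absurd (euler (E := Fin 7) q (d := 3) (k := 3) (fun c hc => ?_)
    (rge (fun (i : Fin 4) (e : Fin 7) => if e = i.castAdd 3 ∨ e = i.castAdd 3 + 1 ∨
      e = i.castAdd 3 + 3 then 1 else 0) (by decide +kernel)
        fun i => Submodule.subset_span ⟨i.castAdd 3, rfl⟩)) (by decide)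
  have h (i : Fin 7) := oo.ge hc (fun e : Fin 7 => if e = i ∨ e = i + 1 ∨ e = i + 3 then 0 else 1)
    (mos.2 (by revert i; decide +kernel))
  clear hc
  revert c
  decide +kernel

set_option synthInstance.maxSize 2048 in
theorem npet : ¬ Cut pet.C := fun q => by
  have key : ∀ a0 a4 a5 : ZMod 2, a0 + (a4 + a5) = 0 →
      ∀ a1 a6 : ZMod 2, a0 + (a1 + a6) = 0 →
      ∀ a2 a7 : ZMod 2, a1 + (a2 + a7) = 0 →
      ∀ a3 a8 : ZMod 2, a2 + (a3 + a8) = 0 →
      ∀ a9 : ZMod 2, a3 + (a4 + a9) = 0 →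
      ∀ a10 a13 : ZMod 2, a5 + (a10 + a13) = 0 →
      ∀ a11 a14 : ZMod 2, a6 + (a11 + a14) = 0 →
      ∀ a12 : ZMod 2, a7 + (a10 + a12) = 0 →
      a8 + (a11 + a13) = 0 →
      a9 + (a12 + a14) = 0 →
      ![a0, a1, a2, a3, a4, a5, a6, a7, a8, a9, a10, a11, a12, a13, a14] ≠ 0 →
      5 ≤ #{e | ![a0, a1, a2, a3, a4, a5, a6, a7, a8, a9, a10, a11, a12, a13, a14] e ≠ 0} := by
    decide +kernel
  refine absurd (euler (E := Fin 15) q (d := 5) (k := 5) (fun c hc => ?_)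
    (rge ![![1, 1, 1, 1, 1, 0, 0, 0, 0, 0, 0, 0, 0, 0, 0],
      ![1, 1, 0, 0, 0, 1, 0, 1, 0, 0, 1, 0, 0, 0, 0],
      ![0, 0, 0, 1, 1, 1, 0, 0, 1, 0, 0, 0, 0, 1, 0],
      ![1, 0, 0, 0, 0, 1, 1, 0, 0, 0, 0, 1, 0, 1, 0],
      ![0, 0, 0, 0, 1, 1, 0, 0, 0, 1, 1, 0, 1, 0, 0],
      ![1, 0, 0, 0, 1, 0, 1, 0, 0, 1, 0, 0, 0, 0, 1]]
      (by decide +kernel) fun i => mos.2 (by revert i; decide +kernel))) (by decide)
  have h := mos.1 hc
  simp +decide only [Fin.forall_fin_succ, Fin.sum_univ_succ, if_true, if_false, add_zero,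
      zero_add, mul_one, mul_zero, sum_empty, univ_eq_empty, Fin.reduceSucc, and_true,
      Fin.succ_zero_eq_one, IsEmpty.forall_iff] at h
  obtain ⟨h0, h1, h2, h3, h4, h5, h6, h7, h8, h9⟩ := h
  have e : c = ![c 0, c 1, c 2, c 3, c 4, c 5, c 6, c 7, c 8, c 9, c 10, c 11, c 12, c 13, c 14] := by
    ext i
    fin_cases i <;> rfl
  rw [e]
  exact key _ _ _ h0 _ _ h1 _ _ h2 _ _ h3 _ h4 _ _ h5 _ _ h6 _ h7 h8 h9

theorem nk5 : ¬ Cut k5.C := fun q => by
  have key : ∀ a0 a1 a2 a3 : ZMod 2, a0 + (a1 + (a2 + a3)) = 0 →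
      ∀ a4 a5 a6 : ZMod 2, a0 + (a4 + (a5 + a6)) = 0 →
      ∀ a7 a8 : ZMod 2, a1 + (a4 + (a7 + a8)) = 0 →
      ∀ a9 : ZMod 2, a2 + (a5 + (a7 + a9)) = 0 →
      a3 + (a6 + (a8 + a9)) = 0 →
      ![a0, a1, a2, a3, a4, a5, a6, a7, a8, a9] ≠ 0 →
      3 ≤ #{e | ![a0, a1, a2, a3, a4, a5, a6, a7, a8, a9] e ≠ 0} := by
    decide +kernel
  refine absurd (euler (E := Fin 10) q (d := 3) (k := 5) (fun c hc => ?_)
    (rge ![![1, 1, 0, 0, 1, 0, 0, 0, 0, 0],
      ![1, 0, 1, 0, 0, 1, 0, 0, 0, 0],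
      ![1, 0, 0, 1, 0, 0, 1, 0, 0, 0],
      ![0, 1, 1, 0, 0, 0, 0, 1, 0, 0],
      ![0, 1, 0, 1, 0, 0, 0, 0, 1, 0],
      ![0, 0, 1, 1, 0, 0, 0, 0, 0, 1]]
      (by decide +kernel) fun i => mos.2 (by revert i; decide +kernel))) (by decide)
  have h := mos.1 hc
  simp +decide only [Fin.forall_fin_succ, Fin.sum_univ_succ, if_true, if_false, add_zero,
      zero_add, mul_one, mul_zero, sum_empty, univ_eq_empty, Fin.reduceSucc, and_true,
      Fin.succ_zero_eq_one, IsEmpty.forall_iff] at h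
  obtain ⟨h0, h1, h2, h3, h4⟩ := h
  have e : c = ![c 0, c 1, c 2, c 3, c 4, c 5, c 6, c 7, c 8, c 9] := by
    ext i
    fin_cases i <;> rfl
  rw [e]
  exact key _ _ _ _ h0 _ _ _ h1 _ _ h2 _ h3 h4

theorem result : ∃ M : BM, MinNA M ∧ ¬ Iso M fano.dual ∧ ¬ Iso M pet ∧ ¬ Iso M k5.dual := by
  obtain ⟨M, ⟨⟨g1, g2⟩, g3, g4⟩, mn⟩ := (measure fun M : BM => Fintype.card M.E).wf.has_min
    {M | (Cut M.C ∧ Cut (orth M.C)) ∧ Bridgeless M ∧ ¬ Alt M}
    ⟨ex, ⟨⟨Fin 8, inferInstance, s, t, fun _ => mex⟩, ex2⟩,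
      fun e => ⟨_, stm (s e), by revert e; change ∀ e : Fin 16, _; decide +kernel⟩, fun h => by
        have := h 0 (Nat.zero_le _)
        rw [c0, show finrank (ZMod 2) ex.C = 7 from rk] at this
        norm_num at this⟩
  refine ⟨M, ⟨g3, g4, fun N h1 h2 h3 => by_contra fun h4 => mn N ⟨?_, h3, h4⟩ h2⟩,
    fun ⟨f, h⟩ => nf (oo (W := fano.C) ▸ (ciso (U := orth (orth fano.C)) f (ciso f h).2).1 g2), fun ⟨f, h⟩ => npet ((ciso f h).1 g1),
    fun ⟨f, h⟩ => nk5 (oo (W := k5.C) ▸ (ciso (U := orth (orth k5.C)) f (ciso f h).2).1 g2)⟩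
  clear h2 h3 h4
  induction h1 with
  | refl => exact ⟨g1, g2⟩
  | tail _ h ih =>
    obtain ⟨A, rfl | rfl⟩ := h
    exacts [⟨cred A ih.1, (ored A).symm ▸ ccon A ih.2⟩, ⟨ccon A ih.1, (ocon A).symm ▸ cred A ih.2⟩]

end Pool.Agent.Results.MP_5bb8bc_co.Fourth
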